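import Pool.Agent.Q94.DRBalls

/-!
# The shifted Douglas-Rachford iterates of two balls converge

Let `A`, `B` be closed balls of a real inner product space `H` of any dimension, `T` the
Douglas-Rachford operator of the pair, `v` its minimal displacement vector. Then `T^n x + n v`
converges in norm for every `x`.
-/

open Q94.DR Filter
open scoped Topology

theorem Pool.Agent.Results.MP_ef197a_an.Converges.result
    {H : Type*} [NormedAddCommGroup H] [InnerProductSpace ℝ H]
    (a b : H) (r s : ℝ) (hr : 0 ≤ r) (hs : 0 ≤ s) (PA PB : H → H)
    (hA : IsProj (Metric.closedBall a r) PA) (hB : IsProj (Metric.closedBall b s) PB)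
    (v : H) (hv : IsMinDisp (DRop PA PB) v) (x : H) :
    ∃ L : H, Tendsto (fun n : ℕ => (DRop PA PB)^[n] x + (n : ℝ) • v) atTop (𝓝 L) :=
  shifted_converge a b r s hr hs PA PB hA hB v hv x
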